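import Pool.Agent.Zk81.RS.Fin

/-!
# MP_dd9835_nt: for fixed `H / F` and `S`, finitely many sets `T = {v}` decide Rubin's conjecture

Let `H / F` be a finite abelian extension of number fields with group `G`, `S` a finite set of
places of `F` which contains the archimedean and the ramified ones, `v_1, ..., v_r` the places of
`S` which split completely, `#S ≥ r + 1`, `w_i` a place over `v_i` (`RubinData`). `Rubin T` is the
statement of Q1 for the set `T`, `Allowed T` the condition on `T`. There are infinitely many
admissible `T`; the Stark element for `T` is `δ_T u` where `u` is the one for the empty set, and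
Rubin's conjecture for `T` says that `δ_T u` is in the lattice `⋂^r U_{S,T}` (`InLattice`).

A set `P` of prime ideals of `F` is called rich if it meets every Frobenius class of every finite
extension of `F` outside every finite set. For example all sets whose complement has lower density
zero are rich, and there are rich sets which are as thin as we like.

Theorem. (1) Every rich set `P` contains a FINITE set `V` of prime ideals such that for ALL
elements `u` of `ℚ ⋀^r U_S`: if `δ_v u` is in `⋂^r U_{S,{v}}` for the `v` in `V`, then `δ_T u` is in
`⋂^r U_{S,T}` for all admissible sets `T`. So `V` does not depend on `L`-functions or Stark elements,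
and Rubin's conjecture for all `T` is equivalent to Rubin's conjecture for the sets `{v}`, `v ∈ V`.
(2) If Rubin's conjecture fails for some admissible `T`, then there are a finite extension `L` of `F`
and an automorphism `Φ` of `L / F` such that it fails for the set `{v}` for ALL prime ideals `v` with
the Frobenius class of `Φ`, up to finitely many.

The starting file `PrimesT` shows that the conjecture for all `T` follows if the `{v}` for which it
fails have lower density zero.

Proof. The functions `δ_v f_1 ∧ ... ∧ f_r`, where the `f_i : U_S → ℚ[G]` are `G`-homomorphisms which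
are integral on `U_{S,{v}}`, have bounded denominators on `⋀^r U_S` (`denom`), the bound depends only
on `r` and the roots of unity in `H`; so they generate a finitely generated abelian group
(`exists_finite`). The comparison of `{v}`, `v ∈ P`, and `T` is done one prime number at a time, with
the arguments of the starting library (`intAt_all`), in which the sets of positive proportion are
replaced by Frobenius classes (`approx`, `approx0`).
-/

set_option autoImplicit false

open NumberField IsDedekindDomain Filter Topology

noncomputable section

namespace Pool.Agent.Results.MP_dd9835_nt.FinitelyManyPrimes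

open Pool.Agent.K3h30.RS Pool.Agent.Zk81.RS

/-- `δ_T u` is in the lattice `⋂^r U_{S,T}`: for all `G`-homomorphisms `f_1, ..., f_r : U_S → ℚ[G]`
with values in `ℤ[G]` on `U_{S,T}` the value of `f_1 ∧ ... ∧ f_r` at `δ_T u` is in `ℤ[G]`. -/
def InLattice {F H G : Type} [Field F] [NumberField F] [Field H] [NumberField H] [Algebra F H]
    [CommGroup G] [Finite G] [MulSemiringAction G H] (D : RubinData F H G)
    (u : Wedge G D.r (D.U ∅)) (T : Finset (HeightOneSpectrum (𝓞 F))) : Prop :=
  IntAt D (U_le D ∅) u T

/-- Finitely many sets `{v}` decide Rubin's conjecture for all `T`. -/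
theorem result {F H G : Type} [Field F] [NumberField F] [Field H] [NumberField H] [Algebra F H]
    [CommGroup G] [Finite G] [MulSemiringAction G H] [IsGaloisGroup G F H]
    (D : RubinData F H G) :
    -- (1) every rich set contains a finite set `V` with the following properties
    (∀ P : HeightOneSpectrum (𝓞 F) → Prop, Rich P →
      ∃ V : Finset (HeightOneSpectrum (𝓞 F)), (∀ v ∈ V, P v ∧ D.Allowed {v}) ∧
        (∀ u : Wedge G D.r (D.U ∅), (∀ v ∈ V, InLattice D u {v}) →
          ∀ T, D.Allowed T → InLattice D u T) ∧
        ((∀ v ∈ V, D.Rubin {v}) → ∀ T, D.Allowed T → D.Rubin T)) ∧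
    -- (2) Rubin's conjecture for all `T`, or counterexamples `{v}` for all `v` in a Frobenius class
    ((∀ T, D.Allowed T → D.Rubin T) ∨
      ∃ (L : Type) (_ : Field L) (_ : NumberField L) (_ : Algebra F L) (Φ : L ≃ₐ[F] L)
        (bad : Finset (HeightOneSpectrum (𝓞 F))),
        ∀ v, v ∉ bad → FrobIn Φ v → D.Allowed {v} ∧ ¬ D.Rubin {v}) := by
  have h1 : ∀ P : HeightOneSpectrum (𝓞 F) → Prop, Rich P →
      ∃ V : Finset (HeightOneSpectrum (𝓞 F)), (∀ v ∈ V, P v ∧ D.Allowed {v}) ∧
        (∀ u : Wedge G D.r (D.U ∅), (∀ v ∈ V, InLattice D u {v}) →
          ∀ T, D.Allowed T → InLattice D u T) ∧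
        ((∀ v ∈ V, D.Rubin {v}) → ∀ T, D.Allowed T → D.Rubin T) := by
    intro P hP
    obtain ⟨V, hne, hV1, hV2⟩ := exists_finite_rich D hP
    exact ⟨V, hV1, fun u hu => hV2 _ (U_le D ∅) u hu, fun h T hT => rubin_all D hne hV2 h T hT⟩
  refine ⟨h1, ?_⟩
  by_cases hR : Rich (fun v : HeightOneSpectrum (𝓞 F) => ¬ (D.Allowed {v} ∧ ¬ D.Rubin {v}))
  · left
    obtain ⟨V, hV1, -, hV2⟩ := h1 _ hR
    refine hV2 fun v hv => ?_
    by_contra hcon
    exact (hV1 v hv).1 ⟨(hV1 v hv).2, hcon⟩
  · right
    unfold Rich at hR
    push Not at hR
    obtain ⟨L, i1, i2, i3, Φ, bad, h⟩ := hR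
    refine ⟨L, i1, i2, i3, Φ, bad, fun v hv hF => ?_⟩
    by_contra hcon
    exact h v (fun ha => by_contra fun hr => hcon ⟨ha, hr⟩) hv hF

end Pool.Agent.Results.MP_dd9835_nt.FinitelyManyPrimes
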